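import Pool.Agent.H20.ER3.Lib

/-!
# MP_816b90_co: row D1 (the prism without three corners `g i (n i)` in `R`)
-/

set_option autoImplicit false

open Pool.Agent.H48.ER Pool.Agent.H52.ER2 Pool.Agent.H66.ER2 Pool.Agent.H20.ER3

namespace Pool.Agent.H38.ER3

theorem pf_D1 (hD0 : U_D0) (hPX : U_PX) : U_D1 := by
  intro V G R p q n g hNOP hEv hp hq hE hPI hodd hend hin
  obtain ⟨i, k, hk, hgk, hz⟩ := hD0 V G p q n g hNOP hPI hodd
  have hpq : p ≠ q := hE.1
  -- the new vertex is the corner `g i (n i)`
  have hki : k = n i := by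
    by_contra hne
    exact hp (hgk ▸ hin i k (by omega))
  subst hki
  have hpos := hPI.pos
  -- neighbours of the new vertex on the prism
  have hnb : ∀ j l, l ≤ n j → ((ctr G p q).Adj p (g j l) ↔ (i = j ∧ l + 1 = n i) ∨
      (i ≠ j ∧ l = n j)) := by
    intro j l hl
    have hA := hPI.adj i j (n i) l le_rfl hl
    rw [hgk] at hA
    rw [hA]
    have h0 := hpos i
    constructor
    · rintro (⟨e, h | h⟩ | ⟨e, h | h⟩)
      · subst e; omega
      · exact Or.inl ⟨e, h⟩
      · omega
      · exact Or.inr ⟨e, h.2⟩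
    · rintro (⟨e, h⟩ | ⟨e, h⟩)
      · exact Or.inl ⟨e, Or.inr h⟩
      · exact Or.inr ⟨e, Or.inr ⟨rfl, h⟩⟩
  -- every vertex of the prism has a neighbour, so it is not `q`
  have hnq : ∀ j l, l ≤ n j → g j l ≠ q := by
    intro j l hl e
    have h0 := hpos j
    rcases Nat.eq_zero_or_pos l with h | h
    · have := (hPI.adj j j l (l + 1) hl (by omega)).2 (Or.inl ⟨rfl, Or.inl rfl⟩)
      rw [e] at this
      exact ctr_not_adj this
    · have := (hPI.adj j j l (l - 1) hl (by omega)).2 (Or.inl ⟨rfl, Or.inr (by omega)⟩)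
      rw [e] at this
      exact ctr_not_adj this
  have hnp : ∀ j l, l ≤ n j → ¬ (j = i ∧ l = n i) → g j l ≠ p := by
    intro j l hl hne e
    exact hne (hPI.inj j i l (n i) hl le_rfl (e.trans hgk.symm))
  -- one of the two old vertices sees `g i (n i - 1)`
  have hpre : (ctr G p q).Adj p (g i (n i - 1)) :=
    (hnb i (n i - 1) (by omega)).2 (Or.inl ⟨rfl, by have := hpos i; omega⟩)
  have hne1 : g i (n i - 1) ≠ p := hnp i _ (by omega) (by have := hpos i; omega)
  have hne2 : g i (n i - 1) ≠ q := hnq i _ (by omega)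
  have hex : ∃ z, (z = p ∨ z = q) ∧ G.Adj z (g i (n i - 1)) := by
    rcases (ctr_adj_left hne1 hne2 hpq).1 hpre with h | h
    · exact ⟨p, Or.inl rfl, h⟩
    · exact ⟨q, Or.inr rfl, h⟩
  obtain ⟨z, hzpq, hza⟩ := hex
  have hzR : z ∉ R := by rcases hzpq with rfl | rfl <;> assumption
  -- adjacency of `z` in `G` gives adjacency of the new vertex
  have hzc : ∀ w, w ≠ p → w ≠ q → G.Adj z w → (ctr G p q).Adj p w := by
    intro w h1 h2 h
    rw [ctr_adj_left h1 h2 hpq]
    rcases hzpq with rfl | rfl
    · exact Or.inl h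
    · exact Or.inr h
  -- `z` sees the other two corners
  have hsee : ∀ j, j ≠ i → G.Adj z (g j (n j)) := by
    intro j hj
    by_contra hna
    have hX := hPX V (ctr G p q) n g i j (n i - 1) (n j) hPI (Ne.symm hj) (by omega) le_rfl
      (by have := hpos i; omega)
    -- vertices of the path
    have hmem : ∀ w ∈ seg (g i) 0 (n i - 1) ∪ seg (g j) 0 (n j), w ≠ p ∧ w ≠ q := by
      rintro w (⟨l, _, hl, rfl⟩ | ⟨l, _, hl, rfl⟩)
      · have h0 := hpos i
        exact ⟨hnp i l (by omega) (by omega), hnq i l (by omega)⟩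
      · exact ⟨hnp j l hl (fun h => hj h.1), hnq j l hl⟩
    have hG : IP G (n i - 1 + 1 + n j) (g i (n i - 1)) (g j (n j))
        (seg (g i) 0 (n i - 1) ∪ seg (g j) 0 (n j)) :=
      hX.congr fun u hu v hv => (ctr_adj_of_ne (hmem u hu).1 (hmem u hu).2 (hmem v hv).1
        (hmem v hv).2).symm
    have hznot : z ∉ seg (g i) 0 (n i - 1) ∪ seg (g j) 0 (n j) := by
      intro h
      rcases hzpq with e | e
      · exact (hmem z h).1 e
      · exact (hmem z h).2 e
    have hcons := hG.cons hznot (by
      intro w hw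
      constructor
      · intro hzw
        have hc := hzc w (hmem w hw).1 (hmem w hw).2 hzw
        rcases hw with ⟨l, _, hl, rfl⟩ | ⟨l, _, hl, rfl⟩
        · rcases (hnb i l (by omega)).1 hc with ⟨_, h⟩ | ⟨h, _⟩
          · have : l = n i - 1 := by omega
            rw [this]
          · exact absurd rfl h
        · rcases (hnb j l hl).1 hc with ⟨h, _⟩ | ⟨_, h⟩
          · exact absurd h.symm hj
          · subst h
            exact absurd hzw hna
      · rintro rfl
        exact hza)
    have h0 := hpos i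
    have hj0 := hpos j
    have hev := hEv _ _ _ _ hcons hzR (hend j) (by omega) (by
      intro w hw
      rcases hw with rfl | hw
      · exact Or.inl rfl
      · rcases hw with ⟨l, _, hl, rfl⟩ | ⟨l, _, hl, rfl⟩
        · exact Or.inr (Or.inr (hin i l (by omega)))
        · rcases Nat.lt_or_ge l (n j) with h | h
          · exact Or.inr (Or.inr (hin j l h))
          · have : l = n j := by omega
            subst this
            exact Or.inr (Or.inl rfl))
    have ho1 := hodd i
    have ho2 := hodd j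
    obtain ⟨a, ha⟩ := ho1
    obtain ⟨b, hb⟩ := ho2
    obtain ⟨c, hc⟩ := hev
    omega
  -- contradiction with D0
  obtain ⟨j, l, hl, hadj, hnadj⟩ := hz z hzpq
  rcases (hnb j l hl).1 hadj with ⟨e, h⟩ | ⟨e, h⟩
  · subst e
    have : l = n i - 1 := by omega
    rw [this] at hnadj
    exact hnadj hza
  · subst h
    exact hnadj (hsee j (Ne.symm e))

end Pool.Agent.H38.ER3
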